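import Pool.Agent.MP_ea150c_mp.H49.SpecG
import Pool.Agent.MP_ea150c_mp.H45.S1pShiftEx

/-! In small weights the common kernel of the two derivations consists of invariants. -/

namespace Pool.Agent.MP_ea150c_mp.H14

open Pool.Agent.MP_ea150c_mp.H49 Polynomial

section

variable {Λ σ : Type} [CommRing Λ] [Fintype σ] [DecidableEq σ] {tor : σ → Bool}

omit [Fintype σ] in
theorem tXi_zero {i : σ} (h : tor i = false) : tXi tor Λ i = 0 := by
  unfold tXi monoZ
  rw [dif_neg]
  intro hm
  have := hm i h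
  simp at this

/-- Graded induction on monomials. -/
theorem mono_ind {Γ : Type} [AddCommGroup Γ] (wt : σ → Γ) (Q : Γ → Tor Λ tor → Prop) (h1 : Q 0 1)
    (hm : ∀ w w' a b, Q w a → Q w' b → Q (w + w') (a * b)) (hX : ∀ i, Q (wt i) (tX tor Λ i))
    (hXi : ∀ i, Q (-wt i) (tXi tor Λ i)) (u : Mon tor) :
    Q (∑ i, u.1 i • wt i) (AddMonoidAlgebra.single u 1) := by
  have hp : ∀ w a (n : ℕ), Q w a → Q (n • w) (a ^ n) := fun w a n h => by
    induction n with
    | zero => simpa using h1
    | succ n ih => rw [succ_nsmul, pow_succ]; exact hm _ _ _ _ ih h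
  rw [mono_eq_prod]
  induction (Finset.univ : Finset σ) using Finset.induction_on with
  | empty => simpa using h1
  | insert i s hi ih =>
    rw [Finset.sum_insert hi, Finset.prod_insert hi]
    refine hm _ _ _ _ ?_ ih
    have h := hm _ _ _ _ (hp _ _ (u.1 i).toNat (hX i)) (hp _ _ (-(u.1 i)).toNat (hXi i))
    rwa [smul_neg, ← sub_eq_add_neg, ← natCast_zsmul, ← natCast_zsmul, ← sub_smul,
      Int.toNat_sub_toNat_neg] at h

/-- An element of small weight that is killed by `D` is fixed by the one-parameter group. -/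
theorem fixed {Γ : Type} [AddCommGroup Γ] (wt : σ → Γ) (s : Γ) (Z : Γ → Submodule Λ (Tor Λ tor))
    (z1 : 1 ∈ Z 0) (zm : ∀ w w' a b, a ∈ Z w → b ∈ Z w' → a * b ∈ Z (w + w'))
    (zX : ∀ i, tX tor Λ i ∈ Z (wt i)) (zXi : ∀ i, tXi tor Λ i ∈ Z (-wt i))
    (D : Tor Λ tor →ₗ[Λ] Tor Λ tor) (hD : ∀ a b, D (a * b) = D a * b + a * D b)
    (hZ : ∀ w a, a ∈ Z w → D a ∈ Z (w - s)) (h0 : ∀ i, tor i = true → D (tX tor Λ i) = 0)
    (h1 : ∀ i, D (tX tor Λ i) = 0 ∨ ∃ l, D (tX tor Λ l) = 0 ∧
      (D (tX tor Λ i) = tX tor Λ l ∨ D (tX tor Λ i) = -tX tor Λ l))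
    (h2 : IsUnit (2 : Λ)) {w : Γ} (hw : ∀ m : ℕ, 3 ≤ m → Z (w - m • s) = ⊥) {z : Tor Λ tor}
    (hz : z ∈ supp tor Λ fun u => ∑ i, u i • wt i = w) (hz0 : D z = 0) (n : Tor Λ tor) :
    ∃ g : Tor Λ tor →ₐ[Λ] Tor Λ tor, (∀ i, g (tX tor Λ i) = tX tor Λ i - n * D (tX tor Λ i)) ∧
      (∀ i, tor i = true → g (tXi tor Λ i) = tXi tor Λ i) ∧ g z = z := by
  let G : Tor Λ tor →ₐ[Λ] (Tor Λ tor)[X] :=
    tlift tor (fun i => C (tX tor Λ i) - X * C (D (tX tor Λ i))) (fun i => C (tXi tor Λ i))
      fun i hi => by rw [h0 i hi, C_0, mul_zero, sub_zero, ← C_mul, tX_mul_tXi tor i hi, C_1]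
  have gX : ∀ i, G (tX tor Λ i) = C (tX tor Λ i) - X * C (D (tX tor Λ i)) := tlift_tX _ _ _ _
  have gXi : ∀ i, G (tXi tor Λ i) = C (tXi tor Λ i) := fun i => by
    cases hi : tor i
    · rw [tXi_zero hi, map_zero, C_0]
    · exact tlift_tXi _ _ _ _ _ hi
  have d1 : D 1 = 0 := by simpa using hD 1 1
  have ha : ∀ a, derivative (G a) = -G (D a) := fun a => by
    induction a using AddMonoidAlgebra.induction_linear with
    | zero => simp
    | add a b ha hb => rw [map_add, map_add, ha, hb, map_add, map_add, neg_add]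
    | single u c =>
      rw [H45.single_eq_smul, map_smul G, map_smul D, map_smul G, derivative_smul, ← smul_neg]
      congr 1
      refine mono_ind (fun _ => (0 : ℤ)) (fun _ a => derivative (G a) = -G (D a)) (by simp [d1])
        (fun _ _ a b ha hb => ?_) (fun i => ?_) (fun i => ?_) u
      · simp only [map_mul, derivative_mul, ha, hb, hD, map_add]
        ring
      · rcases h1 i with h | ⟨l, hl, h | h⟩ <;> simp [*]
      · cases hi : tor i
        · simp [tXi_zero hi]
        · have e := hD (tX tor Λ i) (tXi tor Λ i)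
          rw [tX_mul_tXi tor i hi, d1, h0 i hi, zero_mul, zero_add] at e
          have e2 : D (tXi tor Λ i) = 0 := by
            rw [← one_mul (D _), ← tX_mul_tXi tor i hi, mul_right_comm, ← e, zero_mul]
          simp [gXi, e2]
  have hC : ∀ w a, a ∈ Z w → ∀ m : ℕ, (C a).coeff m ∈ Z (w - m • s) := fun w a h m => by
    rw [coeff_C]
    split_ifs with hm
    · simpa [hm] using h
    · exact zero_mem _
  have hb : ∀ m : ℕ, (G z).coeff m ∈ Z (w - m • s) := by
    refine H45.supp_ind (Q := fun a => ∀ m : ℕ, (G a).coeff m ∈ Z (w - m • s)) hz (by simp)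
      (fun a b ha hb m => by rw [map_add, coeff_add]; exact add_mem (ha m) (hb m))
      fun u c hu _ m => ?_
    rw [H45.single_eq_smul, map_smul, coeff_smul, ← hu]
    refine Submodule.smul_mem _ c (mono_ind wt
      (fun w a => ∀ m : ℕ, (G a).coeff m ∈ Z (w - m • s))
      (fun m => by rw [map_one, ← C_1]; exact hC _ _ z1 m) (fun w w' a b ha hb m => ?_)
      (fun i m => ?_) (fun i m => by rw [gXi]; exact hC _ _ (zXi i) m) u m)
    · rw [map_mul, coeff_mul]
      refine sum_mem fun q hq => ?_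
      have h := zm _ _ _ _ (ha q.1) (hb q.2)
      rwa [← Finset.HasAntidiagonal.mem_antidiagonal.1 hq, add_nsmul, ← sub_add_sub_comm]
    · rw [gX, coeff_sub]
      refine sub_mem (hC _ _ (zX i) m) ?_
      cases m with
      | zero => simp
      | succ m =>
        rw [coeff_X_mul, succ_nsmul', ← sub_sub]
        exact hC _ _ (hZ _ _ (zX i)) m
  have hd : derivative (G z) = 0 := by rw [ha, hz0, map_zero, neg_zero]
  have hc : G z = C ((G z).coeff 0) := by
    ext1 m
    rw [coeff_C]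
    split_ifs with hm
    · rw [hm]
    · by_cases h3 : 3 ≤ m
      · simpa [hw m h3] using hb m
      · have e := fun k => congrArg (coeff · k) hd
        simp only [coeff_derivative, coeff_zero] at e
        obtain rfl | rfl : m = 1 ∨ m = 2 := by omega
        · simpa using e 0
        · have u2 : IsUnit (2 : Tor Λ tor) := by
            rw [← map_ofNat (algebraMap Λ (Tor Λ tor)) 2]
            exact h2.map _
          have e1 := e 1
          refine u2.mul_left_eq_zero.1 ?_
          rw [← e1]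
          norm_num
  have he : ((aeval (0 : Tor Λ tor)).restrictScalars Λ).comp G = AlgHom.id Λ _ :=
    tor_ext tor fun i => by simp [gX]
  have hz1 : (G z).coeff 0 = z := by
    have e := DFunLike.congr_fun he z
    rw [AlgHom.comp_apply, hc] at e
    simpa using e
  refine ⟨((aeval n).restrictScalars Λ).comp G, fun i => by rw [mul_comm n]; simp [gX],
    fun i _ => by simp [gXi], ?_⟩
  rw [AlgHom.comp_apply, hc, hz1]
  simp

end

theorem ci (_s1 : S1) (cx : CX) : CI := by
  intro I τ ι _ _ _ _ _ _ M h Λ _ h2 J w z hw hz e1 e2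
  obtain ⟨d1, d2, -, x1, x2, -, -, hZ, hi, h1, hm, -, hb⟩ := cx I τ ι M h Λ
  have zXi : ∀ y, tXi torV Λ y ∈ M.Zp Λ Finset.univ (-M.wtv y) := fun y => by
    cases hy : torV y
    · rw [tXi_zero hy]; exact zero_mem _
    · rcases y with ⟨v, t⟩ | t
      · obtain rfl : t = 0 := by simpa [torV] using hy
        exact (hi _ v (Finset.mem_univ v)).2.2
      · simp [torV] at hy
  have hz' : z ∈ supp torV Λ fun u => ∑ y, u y • M.wtv y = w := fun u hu => (hz u hu).2
  refine (mem_Ainv Λ z).2 fun j => ?_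
  obtain ⟨g, g1, g2, g3⟩ := fixed M.wtv (0, 0, 2, 0) (M.Zp Λ Finset.univ) (h1 _).1 (hm _) (h1 _).2
    zXi (xiZ Λ I τ) d1 (fun w a ha => (hZ _ w a ha).1)
    (fun y hy => by
      rcases y with ⟨v, t⟩ | t
      · obtain rfl : t = 0 := by simpa [torV] using hy
        simp [x1]
      · simp [x1])
    (fun y => by
      rcases y with ⟨v, t⟩ | t
      · fin_cases t
        · simp [x1]
        · simp [x1]
        · exact Or.inr ⟨Sum.inl (v, 0), by simp [x1], Or.inl (by simp [x1])⟩
        · exact Or.inr ⟨Sum.inl (v, 1), by simp [x1], Or.inr (by simp [x1])⟩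
      · simp [x1])
    h2 (fun m hm => hb _ _ (Or.inl (by
      have := hw.1
      simp only [Prod.smul_mk, smul_zero, Prod.fst_sub, Prod.snd_sub, sub_zero, nsmul_eq_mul]
      omega))) hz' e1 (nZ Λ τ j)
  obtain ⟨g', g1', -, g3'⟩ := fixed M.wtv (0, 0, 0, 2) (M.Zp Λ Finset.univ) (h1 _).1 (hm _)
    (h1 _).2 zXi (xiZ' Λ I τ) d2 (fun w a ha => (hZ _ w a ha).2)
    (fun y hy => by
      rcases y with ⟨v, t⟩ | t
      · obtain rfl : t = 0 := by simpa [torV] using hy
        simp [x2]
      · simp [x2])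
    (fun y => by
      rcases y with ⟨v, t⟩ | t
      · fin_cases t
        · simp [x2]
        · exact Or.inr ⟨Sum.inl (v, 0), by simp [x2], Or.inl (by simp [x2])⟩
        · simp [x2]
        · exact Or.inr ⟨Sum.inl (v, 2), by simp [x2], Or.inr (by simp [x2])⟩
      · simp [x2])
    h2 (fun m hm => hb _ _ (Or.inr (by
      have := hw.2.1
      simp only [Prod.smul_mk, smul_zero, Prod.fst_sub, Prod.snd_sub, sub_zero, nsmul_eq_mul]
      omega))) hz' e2 (nZ' Λ τ j)
  have hn : g (nZ' Λ τ j) = nZ' Λ τ j := by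
    rw [nZ', map_mul, g1, g2 _ (by simp [torV]), x1]
    simp
  have e : sj Λ τ j = g.comp g' := tor_ext _ fun y => by
    rw [sj_tX, AlgHom.comp_apply, g1', map_sub, map_mul, hn, g1, x1, x2]
    rcases y with ⟨v, t⟩ | t
    · fin_cases t <;> simp [gshift, g1, x1]
      ring
    · simp [gshift]
  rw [e, AlgHom.comp_apply, g3', g3]

end Pool.Agent.MP_ea150c_mp.H14
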