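import Pool.Agent.MP_ea150c_mp.H14.VDb

/-! In the second gauge the level one part has no pole at infinity. -/

namespace Pool.Agent.MP_ea150c_mp.H14

open Pool.Agent.MP_ea150c_mp.H49 Pool.Agent.MP_ea150c_mp.H45 MvPolynomial

noncomputable section

variable {I : Type} [LinearOrder I] [Fintype I]

theorem pd_ev (s1 : S1) {Λ : Type} [CommRing Λ] {w : I} {tor : Sl (Ex0 I) w → Bool}
    (x : Sl (Ex0 I) w) (F : MvPolynomial (Var I (Ex0 I)) ℤ) :
    pd tor Λ x (eval₂ (Int.castRingHom _) (xv Λ w tor) F) =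
      eval₂ (Int.castRingHom _) (xv Λ w tor) (pderiv x.1 F) := by
  obtain ⟨h1, h2, -⟩ := s1 Λ _ tor
  induction F using MvPolynomial.induction_on with
  | C a =>
    have d1 : pd tor Λ x 1 = 0 := by simpa using h1 x 1 1
    rw [eval₂_C, pderiv_C, eval₂_zero, eq_intCast, ← zsmul_one, map_zsmul, d1, smul_zero]
  | add F G hF hG => rw [eval₂_add, map_add, map_add, eval₂_add, hF, hG]
  | mul_X F y hF =>
    rw [eval₂_mul, h1, hF, pderiv_mul, eval₂_add, eval₂_mul, eval₂_mul, eval₂_X]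
    congr 2
    by_cases hy : y = x.1
    · rw [hy, xv_coe, h2, if_pos rfl, pderiv_X_self, eval₂_one]
    · rw [pderiv_X_of_ne hy, eval₂_zero, xv]
      split_ifs
      · rw [h2, if_neg fun e => hy (by rw [e])]
      · exact map_zero _

section Orbit

variable {K : Type} [Field K]

theorem sv_ne (i : Fin 4) : sv K i ≠ 0 :=
  (map_ne_zero_iff _ (IsFractionRing.injective (SR K) (LR K))).2 (X_ne_zero i)

theorem gS_eq (Y : Fin 4 → K) : algebraMap (SR K) (LR K) (gS Y) =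
    algebraMap K (LR K) (Y 0) * (sv K 0 * sv K 2) + algebraMap K (LR K) (Y 1) * (sv K 0 * sv K 3) -
      algebraMap K (LR K) (Y 2) * (sv K 1 * sv K 2) +
      algebraMap K (LR K) (Y 3) * (sv K 1 * sv K 3) := by
  simp only [gS, sv, map_add, map_sub, map_mul, IsScalarTower.algebraMap_apply K (SR K) (LR K),
    algebraMap_eq]

/-- The point on the slice without the translation. -/
def yc (P : Pt I K) : Var I (Ex0 I) → LR K :=
  gshift (-(sv K 0 * sv K 1)⁻¹) (sv K 2 * sv K 3)⁻¹ (P.y 0)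

omit [LinearOrder I] [Fintype I] in
theorem yt_eq (P : Pt I K) (lam : K) (y : Var I (Ex0 I)) :
    gshift (-(sv K 0 * sv K 1)⁻¹) (sv K 2 * sv K 3)⁻¹ (P.y lam) y =
      trans ![-(sv K 1 * sv K 3 * algebraMap K (LR K) lam), 0, 0, 0] (yc P) y := by
  have h0 := sv_ne (K := K) 0
  have h1 := sv_ne (K := K) 1
  have h2 := sv_ne (K := K) 2
  have h3 := sv_ne (K := K) 3
  rcases y with ⟨v, r⟩ | v | v
  · fin_cases r <;> simp [trans, yc, gshift, Pt.y, Pt.X1, fr, gS_eq, Matrix.vecHead,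
      Matrix.vecTail] <;> field_simp <;> ring
  · rfl
  · simp [trans, yc, gshift, Pt.y, Pt.X1, fr, gS_eq]
    field_simp
    ring

omit [LinearOrder I] [Fintype I] in
theorem yc_w (P : Pt I K) (h : P.X P.w = 0) (r : Fin 4) : yc P (Sum.inl (P.w, r)) = 0 := by
  fin_cases r <;> simp [yc, gshift, Pt.y, Pt.X1, fr, gS_eq, h]

omit [LinearOrder I] [Fintype I] in
theorem y_w (P : Pt I K) (h : P.X P.w = 0) (ha : P.al P.w ≠ 0) {lam : K} (hl : lam ≠ 0) :
    P.y lam (Sum.inl (P.w, 2)) * (P.y lam (Sum.inl (P.w, 0)))⁻¹ = -(sv K 0 * sv K 1)⁻¹ ∧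
    P.y lam (Sum.inl (P.w, 1)) * (P.y lam (Sum.inl (P.w, 0)))⁻¹ = (sv K 2 * sv K 3)⁻¹ := by
  have h0 := sv_ne (K := K) 0
  have h1 := sv_ne (K := K) 1
  have h2 := sv_ne (K := K) 2
  have h3 := sv_ne (K := K) 3
  have h4 := (map_ne_zero (algebraMap K (LR K))).2 ha
  have h5 := (map_ne_zero (algebraMap K (LR K))).2 hl
  constructor <;> simp [Pt.y, Pt.X1, fr, gS_eq, h] <;> field_simp

end Orbit

section Lift

variable {p : ℕ} [Fact p.Prime] {w : I} (θ : Tor ℤ_[p] (tor1 w) →ₐ[ℤ_[p]] Tor ℤ_[p] (tor1 w))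

/-- Elements that are polynomial on the slice, of bounded degree in the new coordinates. -/
def Pz (n : ℕ) : Submodule ℤ_[p] (Ainv ℤ_[p] I (Ex0 I)) :=
  (((Dg _ _ (cS _ w) n).comap (θ.comp (inc _ _)).toLinearMap).map
    (inc _ (torS _ w)).toLinearMap).comap (rhoA ℤ_[p] _ w).toLinearMap

variable {θ}

theorem pz_poly (hθ : ∀ y, θ (xv _ w _ y) = nw _ w y) {n : ℕ} {a : Ainv ℤ_[p] I (Ex0 I)}
    {F : MvPolynomial (Var I (Ex0 I)) ℤ} (ha : a.1 = ofPoly torV ℤ_[p] F)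
    (hF : eval₂ (Int.castRingHom _) (nw _ w) F ∈ Dg ℤ_[p] _ (cS _ w) n) : a ∈ Pz θ n := by
  refine ⟨eval₂ (Int.castRingHom _) (xv _ w _) F, ?_, ?_⟩
  · change θ (inc _ _ _) ∈ Dg _ _ _ _
    simpa only [map_ev, inc_xv, hθ] using hF
  · change inc _ _ _ = rhoZ _ _ w a.1
    rw [ha, ofPoly, coe_eval₂Hom, map_ev, map_ev]
    congr 1
    funext y
    rw [inc_xv, rhoZ, tlift_tX, xv]

theorem pz_mul {m n : ℕ} {a b : Ainv ℤ_[p] I (Ex0 I)} (ha : a ∈ Pz θ m) (hb : b ∈ Pz θ n) :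
    a * b ∈ Pz θ (m + n) := by
  obtain ⟨a', h1, h2⟩ := ha
  obtain ⟨b', h3, h4⟩ := hb
  refine ⟨a' * b', ?_, ?_⟩
  · change (θ.comp (inc _ _)) (a' * b') ∈ Dg _ _ _ _
    rw [map_mul]
    exact dg_mul h1 h3
  · change inc _ _ _ = rhoA _ _ w _
    rw [map_mul, map_mul]
    exact congrArg₂ _ h2 h4

variable {E : Type} [Fintype E] [DecidableEq E]

theorem pz_xc (hθ : ∀ y, θ (xv _ w _ y) = nw _ w y) (G : PG I E) (h : G.M0.Good) (x₀ : ℤ_[p])
    (m : Io G Finset.univ → ℤ_[p]) (s : I → I → ℤ_[p]) (l : Io G Finset.univ → ℕ) :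
    G.xc h p x₀ m s l ∈ Pz θ 1 := by
  rw [PG.xc, Pi.add_apply, Finset.sum_apply]
  refine add_mem ?_ (sum_mem fun i _ => ?_) <;> rw [Pi.single_apply] <;> split_ifs
  · rw [Algebra.algebraMap_eq_smul_one]
    exact Submodule.smul_mem _ _ (pz_poly hθ (F := 1) (by simp)
      (by simpa using dg_mono zero_le_one dg_one))
  · exact zero_mem _
  · refine add_mem (Submodule.smul_mem _ _ (pz_poly hθ rfl (dg_mono (dgf_le G i) (f_dg G i))))
      (sum_mem fun u _ => sum_mem fun v _ => ?_)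
    split_ifs
    · refine Submodule.smul_mem _ _ (pz_poly hθ (F := alP ∅ u * beP ∅ v) ?_ ?_)
      · change sj _ _ u _ = _
        simp [ofPoly, alP, beP, sj_tX, gshift]
      · have h0 : nw ℤ_[p] w (al u) ∈ _ := z0_dg (al u)
        simpa [alP, beP] using dg_mul h0 (be_dg v)
    · exact zero_mem _
  · exact zero_mem _

end Lift

theorem vd (_k1 : K1) (s1 : S1) (s1p : S1p) (s2 : S2) (sx : ShiftEx) (gm : GM) (g1 : G1) (ve : VE)
    (vp : VP) : VD := by
  intro I E _ _ _ _ G hG h p _ hp K _ _ P hP J x₀ m s u hu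
  obtain ⟨τ, hτ, hθ⟩ := exists_tau (p := p) sx P.w
  obtain ⟨k1, k2, -⟩ := g1 I _ _ G.M0 h ℤ_[p] P.w
  set ε : ℕ := if P.w ∈ J then 1 else 0 with hε
  have hB : ∀ l, ∃ a, inc _ (torS _ P.w) a =
      chi p _ P.w ((NhA p P.w (J.map (e2 I)) • G.xc h p x₀ m s) l) ∧
      τ.symm (inc _ _ a) ∈ Dg _ _ (cS _ P.w) (2 * 1 + (p * ε + 1)) := fun l => by
    obtain ⟨a, h1, h2⟩ := pz_mul (pz_poly (θ := τ.symm.toAlgHom) hθ
      ((vp I E G hG h p hp P.w).2.1 _) (Nh_dg (by omega) J)) (pz_xc hθ G h x₀ m s l)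
    refine ⟨tX _ _ (cS _ P.w) ^ 2 * a, ?_, ?_⟩
    · rw [map_mul, map_pow, inc_tX]
      exact congrArg _ h2
    · rw [map_mul, map_pow, inc_tX, map_mul, map_pow, ← xv_coe, hθ]
      refine dg_mul (dg_pow ?_ 2) h1
      simpa [nw, trans, zw, cS] using dg_mul (z0_dg (al P.w)) T0_dg
  choose B hB1 hB2 using hB
  obtain ⟨z₀, z₂, η, hz⟩ := core s1p s2 gm hp (torS _ P.w) (cS _ P.w)
    (fun i => eval₂ (Int.castRingHom _) (xv _ P.w _) (G.M0.f i)) B τ hτ (dg := dgf G)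
    (fun i => by simpa only [map_ev, inc_xv, hθ] using f_dg G i) hB2 (n := 2 + ε) (by
      have := Nat.mul_le_mul_left (p - 1) (dgf_sum hG)
      obtain ⟨q, rfl⟩ : ∃ q, p = q + 1 := ⟨p - 1, by omega⟩
      simp only [Nat.add_sub_cancel] at this ⊢
      nlinarith)
  have hu' : ∀ i, u i = kapS _ _ P.w (tXi _ _ (cS _ P.w) ^ 2 * inc _ _ (z₀ i)) := fun i => by
    have e : kapS _ _ P.w (tXi _ _ (cS _ P.w) ^ 2 * stdPsi p _
        (fun i => rhoA ℤ_[p] _ P.w (G.M0.fA ℤ_[p] h i))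
        (fun l => chi p _ P.w ((NhA p P.w (J.map (e2 I)) • G.xc h p x₀ m s) l))
        (Pi.single i 1)) = (p : ℤ_[p]) • u i := hu i
    have e1 : (fun i => rhoA ℤ_[p] _ P.w (G.M0.fA ℤ_[p] h i)) = fun i => inc _ (torS _ P.w)
        (eval₂ (Int.castRingHom _) (xv _ P.w _) (G.M0.f i)) := funext fun i => by
      change rhoZ _ _ P.w (ofPoly _ _ _) = _
      rw [ofPoly, coe_eval₂Hom, map_ev, map_ev]
      congr 1
      funext y
      rw [inc_xv, rhoZ, tlift_tX, xv]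
    rw [e1, ← funext hB1, (hz i).1] at e
    have e2 := congrArg (rhoA ℤ_[p] _ P.w) e
    rw [k1, map_smul, mul_smul_comm] at e2
    rw [pcancel s1p e2, k2]
  let _ : Algebra ℤ_[p] (LR K) := ((algebraMap K (LR K)).comp (zk p K)).toAlgebra
  have ha := (map_ne_zero (algebraMap K (LR K))).2 hP.alw
  set κ : LR K := -(algebraMap K (LR K) (P.al P.w) * (sv K 1 * sv K 3)) with hκ
  have hκ0 : κ ≠ 0 := neg_ne_zero.2 (mul_ne_zero ha (mul_ne_zero (sv_ne 1) (sv_ne 3)))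
  let Ev : Tor ℤ_[p] (tor1 P.w) →ₐ[ℤ_[p]] Polynomial (LR K) := tlift _
    (fun x => if x = cS _ P.w then Polynomial.C κ * Polynomial.X else Polynomial.C (yc P x.1))
    (fun _ => Polynomial.C (algebraMap K (LR K) (P.al P.w))⁻¹) fun x hx => by
      have hx' : x.1 = al P.w := by simpa [tor1] using hx
      rw [if_neg fun e => by simp [e, cS] at hx', hx', ← Polynomial.C_mul]
      exact (congrArg _ (mul_inv_cancel₀ ha)).trans Polynomial.C_1
  have EX : ∀ x, Ev (tX _ _ x) =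
      if x = cS _ P.w then Polynomial.C κ * Polynomial.X else Polynomial.C (yc P x.1) :=
    tlift_tX _ _ _ _
  have EXi : Ev (tXi _ _ (aS P.w)) = Polynomial.C (algebraMap K (LR K) (P.al P.w))⁻¹ :=
    tlift_tXi _ _ _ _ _ (by simp [tor1, aS])
  set Q := ∑ i, Polynomial.C (algebraMap K (LR K) (P.mu G i)) * Ev (z₂ i) with hQ
  have hd : Q.natDegree ≤ 2 + ε := by
    refine Polynomial.natDegree_sum_le_of_forall_le _ _ fun i _ => ?_
    by_cases hi : dgf G i = 0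
    · refine (Polynomial.natDegree_C_mul_le _ _).trans (dg_coeff Ev (by simp [tor1, cS])
        (fun l => ?_) (fun l => ?_) ((hz i).2.2 hi))
      · rw [EX]
        split_ifs
        · exact (Polynomial.natDegree_C_mul_le _ _).trans Polynomial.natDegree_X_le
        · simp
      · cases hl : tor1 P.w l
        · simp [tXi_zero hl]
        · rw [tlift_tXi _ _ _ _ _ hl, Polynomial.natDegree_C]
    · have h0 : P.mu G i = 0 := by
        rcases i with v | e | v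
        · exact absurd rfl hi
        · have h1 : G.src e = none ∨ G.tgt e = none := by_contra fun h' => hi (if_neg h')
          change P.tO _ _ = 0
          rcases h1 with h1 | h1 <;> rw [h1]
          · rfl
          · cases G.src e <;> rfl
        · rfl
      simp [h0]
  refine ⟨2 + ε + 1, fun e => κ⁻¹ ^ 2 * Q.coeff (2 + ε - e), fun lam hl ev hev => ?_⟩
  have hL := (map_ne_zero (algebraMap K (LR K))).2 hl
  set t := algebraMap K (LR K) lam with ht
  let evA : Zr ℤ_[p] I (Ex0 I) →ₐ[ℤ_[p]] LR K := ⟨ev, hev.1⟩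
  have hn : ev (tXi torV _ (Sum.inl (P.w, 0))) = (P.y lam (Sum.inl (P.w, 0)))⁻¹ :=
    eq_inv_of_mul_eq_one_right (by rw [← hev.2, ← map_mul, tX_mul_tXi _ _ rfl, map_one])
  have hy : ∀ y, ev (sj _ _ P.w (tX torV _ y)) =
      trans ![-(sv K 1 * sv K 3 * t), 0, 0, 0] (yc P) y := fun y => by
    rw [sj_tX, map_gshift, nZ, nZ', map_mul, map_mul, hn, hev.2, hev.2,
      (y_w P hP.Xw hP.alw hl).1, (y_w P hP.Xw hP.alw hl).2, funext hev.2, yt_eq]
  let e3 : Tor ℤ_[p] (tor1 P.w) →ₐ[ℤ_[p]] LR K :=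
    ((Polynomial.aeval t).restrictScalars ℤ_[p]).comp Ev
  have h3 : ∀ a, e3 a = (Ev a).eval t := fun a => by simp [e3]
  have h4 : ∀ y, y ≠ Sum.inl (P.w, 0) → e3 (xv _ P.w _ y) = yc P y := fun y hy => by
    unfold xv
    split_ifs with h'
    · rw [h3, EX, if_neg fun e => hy (congrArg Subtype.val e), Polynomial.eval_C]
    · rcases not_and_or.1 h' with h' | h' <;> rw [not_not.1 h', map_zero, yc_w P hP.Xw]
  have h5 : ∀ y, e3 (τ.symm (xv _ P.w _ y)) =
      trans ![-(sv K 1 * sv K 3 * t), 0, 0, 0] (yc P) y := fun y => by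
    rw [hθ, nw, map_trans]
    congr 1
    · funext r
      rw [TT, map_mul, h3 (tXi _ _ _), EXi, Polynomial.eval_C]
      by_cases hr : r = 0
      · rw [hr, show xv ℤ_[p] P.w (tor1 P.w) (Sum.inl (P.w, 0)) = _ from xv_coe _ (cS _ P.w), h3,
          EX, if_pos rfl]
        simp [hκ]
        field_simp
      · rw [h4 _ (by simp [hr]), yc_w P hP.Xw, zero_mul]
        fin_cases r <;> simp at hr ⊢
    · funext z
      rcases z with ⟨v, r⟩ | z
      · simp only [zw]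
        split_ifs with hv
        · rw [hv, map_zero, yc_w P hP.Xw]
        · exact h4 _ (by simp [hv])
      · exact h4 _ (by simp)
  let e1 := evA.comp ((sj ℤ_[p] _ P.w).comp (inS _ _ P.w))
  have h6 : ∀ x, e1 (tX _ _ x) = ev (sj _ _ P.w (tX torV _ x.1)) := fun x => by
    simp only [e1, AlgHom.comp_apply, inS, tlift_tX]
    rfl
  have h7 : e1.comp (inc _ _) = (e3.comp τ.symm.toAlgHom).comp (inc _ _) :=
    tor_ext _ fun x => by
      rw [AlgHom.comp_apply, inc_tX, h6, hy, AlgHom.comp_apply, inc_tX, ← xv_coe, ← h5]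
      rfl
  have h8 : e1 (tXi _ _ (cS _ P.w)) = (κ * t)⁻¹ := eq_inv_of_mul_eq_one_right (by
    rw [← map_one e1, ← tX_mul_tXi (torS _ P.w) (cS _ P.w) rfl, map_mul, h6, hy]
    congr 1
    change _ = yc P (Sum.inl (P.w, 0)) + algebraMap K (LR K) (P.al P.w) * -(sv K 1 * sv K 3 * t)
    rw [yc_w P hP.Xw, hκ]
    ring)
  have h9 : ∀ i, ev (u i).1 = (κ * t)⁻¹ ^ 2 * ((Ev (z₂ i)).eval t - ∑ x, e3 (τ.symm (η x)) *
      ev (sj ℤ_[p] _ P.w (ofPoly torV ℤ_[p] (pderiv x.1 (G.M0.f i))))) := fun i => by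
    obtain ⟨r, hr⟩ := (hz i).2.1
    have e : e1 (inc _ _ (z₀ i)) = e3 (τ.symm (inc _ _ (z₀ i))) := DFunLike.congr_fun h7 _
    have e0 : e3 ((p : ℤ_[p]) • τ.symm r) = 0 := by
      rw [psmul, map_mul, map_natCast, ← map_natCast (algebraMap K (LR K)), CharP.cast_eq_zero,
        map_zero, zero_mul]
    rw [hu', show ev (kapS _ _ P.w _).1 = e1 _ from rfl, map_mul, map_pow, h8, e, hr]
    simp only [map_sub, map_sum, map_mul, map_smul τ.symm, e0, sub_zero, AlgEquiv.symm_apply_apply,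
      h3 (z₂ i), map_ev, inc_xv, pd_ev s1, h5, ofPoly, coe_eval₂Hom, hy]
  have h10 := ((ve I E G hG h p hp K P hP lam hl).2 ev hev).2.2.1 P.w
  have h11 : P.sig G ev u = (κ * t)⁻¹ ^ 2 * Q.eval t := by
    simp only [Pt.sig, h9, mul_left_comm _ ((κ * t)⁻¹ ^ 2), ← Finset.mul_sum, mul_sub,
      Finset.sum_sub_distrib, hQ, Polynomial.eval_finsetSum, Polynomial.eval_mul,
      Polynomial.eval_C]
    rw [sub_eq_self]
    simp only [Finset.mul_sum, mul_left_comm (algebraMap K (LR K) _)]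
    rw [Finset.sum_comm]
    simp only [← Finset.mul_sum, h10, mul_zero, Finset.sum_const_zero]
  rw [h11, Polynomial.eval_eq_sum_range' (Nat.lt_succ_of_le hd), ← Finset.sum_range_reflect,
    Finset.mul_sum, Finset.mul_sum]
  refine Finset.sum_congr rfl fun e he => ?_
  have he' : e ≤ 2 + ε := Nat.lt_succ_iff.1 (Finset.mem_range.1 he)
  rw [Nat.succ_sub_one, pow_sub₀ _ hL he', pow_add, inv_pow t]
  field_simp

end

end Pool.Agent.MP_ea150c_mp.H14
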