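import Pool.Agent.MP_ea150c_mp.H14.CI

/-! Change of ring, change of coordinates and degree bounds for the level one part of the
standard Dwork operator. -/

namespace Pool.Agent.MP_ea150c_mp.H14

open Pool.Agent.MP_ea150c_mp.H49 Pool.Agent.MP_ea150c_mp.H45

noncomputable section

section Inc

variable {Λ σ : Type} [CommRing Λ]

theorem mon_le (tor : σ → Bool) : Mon (fun _ : σ => false) ≤ Mon tor := fun _ hu i _ => hu i rfl

/-- Polynomials inside a toric ring. -/
def inc (Λ : Type) [CommRing Λ] (tor : σ → Bool) : Tor Λ (fun _ : σ => false) →ₐ[Λ] Tor Λ tor :=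
  AddMonoidAlgebra.mapDomainAlgHom Λ Λ (AddSubmonoid.inclusion (mon_le tor))

variable {tor : σ → Bool}

theorem inc_single (u : Mon (fun _ : σ => false)) (c : Λ) :
    inc Λ tor (AddMonoidAlgebra.single u c) = AddMonoidAlgebra.single ⟨u.1, mon_le tor u.2⟩ c := by
  simp [inc]; rfl

theorem inc_mono {u : σ → ℤ} (hu : u ∈ Mon (fun _ : σ => false)) :
    inc Λ tor (monoZ _ Λ u) = monoZ tor Λ u := by
  rw [monoZ, monoZ, dif_pos hu, dif_pos (mon_le tor hu), inc_single]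

theorem inc_phi0 (p : ℕ) (a : Tor Λ (fun _ : σ => false)) :
    inc Λ tor (phi0 _ Λ p a) = phi0 tor Λ p (inc Λ tor a) := by
  induction a using AddMonoidAlgebra.induction_linear with
  | zero => simp
  | add a b ha hb => simp only [map_add, ha, hb]
  | single u c => rw [phi0_single, inc_single, inc_single, phi0_single]; rfl

theorem inc_psi0 {p : ℕ} (hp : 1 ≤ p) (a : Tor Λ (fun _ : σ => false)) :
    inc Λ tor (psi0 _ Λ p a) = psi0 tor Λ p (inc Λ tor a) := by
  induction a using AddMonoidAlgebra.induction_linear with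
  | zero => simp
  | add a b ha hb => simp only [map_add, ha, hb]
  | single u c =>
    rw [inc_single, psi0, psi0, linOf_single, linOf_single, map_smul]
    congr 1
    split_ifs with h
    · refine inc_mono fun i _ => ?_
      have h0 := u.2 i rfl
      have := Int.le_of_dvd (by omega) (h i)
      have := Int.le_ediv_of_mul_le (a := 1) (by omega : (0 : ℤ) < p) (by omega : 1 * (p : ℤ) ≤ u.1 i + 1)
      omega
    · exact map_zero _

/-- Elements of degree at most `n` in the variable `c`. -/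
def Dg (Λ : Type) [CommRing Λ] (tor : σ → Bool) (c : σ) (n : ℕ) : Submodule Λ (Tor Λ tor) :=
  supp tor Λ fun u => u c ≤ n

variable {c : σ}

theorem dg_mono {m n : ℕ} (h : m ≤ n) {a : Tor Λ tor} (ha : a ∈ Dg Λ tor c m) :
    a ∈ Dg Λ tor c n := fun u hu => (ha u hu).trans (by exact_mod_cast h)

theorem dg_mul {m n : ℕ} {a b : Tor Λ tor} (ha : a ∈ Dg Λ tor c m) (hb : b ∈ Dg Λ tor c n) :
    a * b ∈ Dg Λ tor c (m + n) :=
  supp_mul (fun u v hu hv => by rw [Pi.add_apply]; push_cast; omega) ha hb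

theorem dg_mul0 {a b : Tor Λ tor} (ha : a ∈ Dg Λ tor c 0) (hb : b ∈ Dg Λ tor c 0) :
    a * b ∈ Dg Λ tor c 0 := dg_mul ha hb

theorem dg_one : (1 : Tor Λ tor) ∈ Dg Λ tor c 0 := single_mem_supp 0 1 le_rfl

theorem dg_pow {m : ℕ} {a : Tor Λ tor} (ha : a ∈ Dg Λ tor c m) (k : ℕ) :
    a ^ k ∈ Dg Λ tor c (k * m) := by
  induction k with
  | zero => simpa using dg_one
  | succ k ih => rw [pow_succ, Nat.succ_mul]; exact dg_mul ih ha

theorem dg_prod {ι : Type} (s : Finset ι) {a : ι → Tor Λ tor} {d : ι → ℕ}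
    (h : ∀ j, a j ∈ Dg Λ tor c (d j)) : ∏ j ∈ s, a j ∈ Dg Λ tor c (∑ j ∈ s, d j) := by
  classical
  induction s using Finset.induction_on with
  | empty => simpa using dg_one
  | insert j s hj ih => rw [Finset.prod_insert hj, Finset.sum_insert hj]; exact dg_mul (h j) ih

theorem dg_monoZ {n : ℕ} {u : σ → ℤ} (hu : u c ≤ n) : monoZ tor Λ u ∈ Dg Λ tor c n := by
  unfold monoZ
  split_ifs
  · exact single_mem_supp _ _ hu
  · exact zero_mem _

theorem dg_phi0 (p : ℕ) {a : Tor Λ tor} (ha : a ∈ Dg Λ tor c 0) : phi0 tor Λ p a ∈ Dg Λ tor c 0 := by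
  refine supp_ind (Q := fun a => phi0 tor Λ p a ∈ Dg Λ tor c 0) ha (by simp)
    (fun a b ha hb => by rw [map_add]; exact add_mem ha hb) fun u d hu _ => ?_
  rw [phi0_single]
  refine single_mem_supp _ _ ?_
  change p • u.1 c ≤ _
  exact nsmul_nonpos hu p

theorem dg_psi0 {p n : ℕ} (hp : 2 ≤ p) {a : Tor Λ tor} (ha : a ∈ Dg Λ tor c (p * (n + 1))) :
    psi0 tor Λ p a ∈ Dg Λ tor c n := by
  refine supp_ind (Q := fun a => psi0 tor Λ p a ∈ Dg Λ tor c n) ha (by simp)
    (fun a b ha hb => by rw [map_add]; exact add_mem ha hb) fun u d hu _ => ?_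
  rw [psi0, linOf_single]
  refine Submodule.smul_mem _ _ ?_
  split_ifs with h
  · refine dg_monoZ ?_
    have := Int.ediv_lt_of_lt_mul (a := u.1 c + 1) (b := n + 2) (by omega : (0 : ℤ) < p) (by
      push_cast at hu
      nlinarith)
    omega
  · exact zero_mem _

theorem dg_eval {υ : Type} {x : υ → Tor Λ tor} (hx : ∀ y, x y ∈ Dg Λ tor c 0)
    (F : MvPolynomial υ ℤ) : MvPolynomial.eval₂ (Int.castRingHom _) x F ∈ Dg Λ tor c 0 := by
  induction F using MvPolynomial.induction_on with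
  | C a =>
    rw [MvPolynomial.eval₂_C]
    simpa using zsmul_mem (dg_one (Λ := Λ) (tor := tor) (c := c)) a
  | add F G hF hG => rw [MvPolynomial.eval₂_add]; exact add_mem hF hG
  | mul_X F y hF => rw [MvPolynomial.eval₂_mul, MvPolynomial.eval₂_X]; exact dg_mul0 hF (hx y)

variable [DecidableEq σ]

theorem inc_tX [Fintype σ] (i : σ) : inc Λ tor (tX _ Λ i) = tX tor Λ i := inc_mono (single_mem _ i)

theorem dg_tX (l : σ) : tX tor Λ l ∈ Dg Λ tor c (if l = c then 1 else 0) := by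
  refine dg_monoZ ?_
  split_ifs with h
  · simp [h]
  · simp [Ne.symm h]

theorem dg_tXi (l : σ) : tXi tor Λ l ∈ Dg Λ tor c 0 := by
  refine dg_monoZ ?_
  by_cases h : l = c
  · simp [h]
  · simp [Ne.symm h]

/-- The degree of an evaluation in one variable. -/
theorem dg_coeff [Fintype σ] {L : Type} [CommRing L] [Algebra Λ L]
    (E : Tor Λ tor →ₐ[Λ] Polynomial L) (hc : tor c = false)
    (h1 : ∀ l, (E (tX tor Λ l)).natDegree ≤ if l = c then 1 else 0)
    (h2 : ∀ l, (E (tXi tor Λ l)).natDegree = 0) {n : ℕ} {a : Tor Λ tor} (ha : a ∈ Dg Λ tor c n) :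
    (E a).natDegree ≤ n := by
  refine Polynomial.natDegree_le_iff_coeff_eq_zero.2 fun m hm => ?_
  refine supp_ind (Q := fun a => (E a).coeff m = 0) ha (by simp)
    (fun a b ha hb => by rw [map_add, Polynomial.coeff_add, ha, hb, add_zero]) fun u d hu _ => ?_
  rw [single_eq_smul, map_smul, Polynomial.coeff_smul]
  have h := mono_ind (fun l => if l = c then (1 : ℤ) else 0)
    (fun w a => ∀ m : ℕ, w < m → (E a).coeff m = 0)
    (fun m hm => by rw [map_one, Polynomial.coeff_one, if_neg (by omega)])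
    (fun w w' a b ha hb m hm => by
      rw [map_mul, Polynomial.coeff_mul]
      refine Finset.sum_eq_zero fun q hq => ?_
      have := Finset.HasAntidiagonal.mem_antidiagonal.1 hq
      by_cases h : w < q.1
      · rw [ha _ h, zero_mul]
      · rw [hb _ (by omega), mul_zero])
    (fun l m hm => Polynomial.coeff_eq_zero_of_natDegree_lt ((h1 l).trans_lt (by
      split_ifs at hm ⊢ <;> omega)))
    (fun l m hm => by
      by_cases hl : l = c
      · rw [hl, tXi_zero hc, map_zero, Polynomial.coeff_zero]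
      · rw [if_neg hl] at hm
        exact Polynomial.coeff_eq_zero_of_natDegree_lt (by rw [h2]; omega)) u m (by
      simp only [mul_ite, smul_eq_mul, mul_one, mul_zero, Finset.sum_ite_eq', Finset.mem_univ,
        if_true]
      omega)
  rw [h, smul_zero]

end Inc

section Psi

variable {p : ℕ} [Fact p.Prime] {σ ι : Type} [Fintype σ] [DecidableEq σ] [Fintype ι]
  [DecidableEq ι] {tor : σ → Bool}

omit [Fintype σ] [DecidableEq σ] in
theorem psmul (a : Tor ℤ_[p] tor) : (p : ℤ_[p]) • a = (p : Tor ℤ_[p] tor) * a := by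
  rw [Nat.cast_smul_eq_nsmul, nsmul_eq_mul]

theorem pcancel (s1p : S1p) {a b : Tor ℤ_[p] tor} (h : (p : ℤ_[p]) • a = (p : ℤ_[p]) • b) :
    a = b :=
  sub_eq_zero.1 ((s1p p σ tor).1 _ (by rw [← psmul, smul_sub, h, sub_self]))

theorem inc_stdPsi (s1p : S1p) (f : ι → Tor ℤ_[p] (fun _ : σ => false))
    (b : PS ι (Tor ℤ_[p] (fun _ : σ => false))) (l : ι → ℕ) :
    stdPsi p tor (fun i => inc _ tor (f i)) (fun l' => inc _ tor (b l')) l =
      inc _ tor (stdPsi p _ f b l) := by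
  have h : ∀ i, divp p (inc _ tor (f i) ^ p - phi0 tor ℤ_[p] p (inc _ tor (f i))) =
      inc _ tor (divp p (f i ^ p - phi0 _ ℤ_[p] p (f i))) := fun i => pcancel s1p (by
    rw [← map_smul, psmul, psmul, (s1p p σ _).2.1, (s1p p σ _).2.1, map_sub, map_pow, inc_phi0])
  simp only [stdPsi, PsiOp, LinearMap.coe_mk, AddHom.coe_mk, map_sum, h,
    inc_psi0 (Fact.out : p.Prime).one_le, map_mul, Ker, kap, map_prod, map_smul, map_pow]

omit [DecidableEq σ] in
theorem mem_Tp {a : Tor ℤ_[p] tor} {w : Unit} :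
    a ∈ Tp tor (Empty.elim : Empty → σ) (fun _ => ()) ℤ_[p] ∅ w :=
  fun _ _ => ⟨fun v => v.elim, rfl⟩

theorem pdiv (s2 : S2) (hp : 7 ≤ p) (f : ι → Tor ℤ_[p] tor) (b : PS ι (Tor ℤ_[p] tor)) (i : ι) :
    ∃ z, stdPsi p tor f b (Pi.single i 1) = (p : ℤ_[p]) • z := by
  obtain ⟨z, -, hz⟩ := ((s2 p hp σ ι tor f).2.2.2.2.2.2 Empty Unit Empty.elim (fun _ => ())
    (fun _ => ()) ∅ (fun _ _ => rfl) fun _ => mem_Tp).2 () b (Pi.single i 1) fun _ _ => mem_Tp
  refine ⟨z, ?_⟩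
  rw [← hz]
  simp [nu]

theorem near (s2 : S2) (hp : 7 ≤ p) (f : ι → Tor ℤ_[p] tor) (b : PS ι (Tor ℤ_[p] tor)) {N}
    (hN : N ∈ NearStd tor (Empty.elim : Empty → σ) (fun _ => ()) p ∅ f) :
    ∃ η : σ → Tor ℤ_[p] tor, ∀ i, ∃ r, N b (Pi.single i 1) =
      (p : ℤ_[p]) • (∑ x, η x * pd tor ℤ_[p] x (f i) + (p : ℤ_[p]) • r) := by
  induction hN using Submodule.span_induction with
  | zero => exact ⟨0, fun i => ⟨0, by simp⟩⟩
  | add N N' _ _ h h' =>
    obtain ⟨η, h⟩ := h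
    obtain ⟨η', h'⟩ := h'
    refine ⟨η + η', fun i => ?_⟩
    obtain ⟨r, e⟩ := h i
    obtain ⟨r', e'⟩ := h' i
    refine ⟨r + r', ?_⟩
    rw [LinearMap.add_apply, Pi.add_apply, e, e']
    simp only [Pi.add_apply, add_mul, Finset.sum_add_distrib, smul_add]
    abel
  | smul c N _ h =>
    obtain ⟨η, h⟩ := h
    refine ⟨c • η, fun i => ?_⟩
    obtain ⟨r, e⟩ := h i
    refine ⟨c • r, ?_⟩
    rw [LinearMap.smul_apply, Pi.smul_apply, e, smul_comm c, smul_add, smul_comm c,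
      Finset.smul_sum]
    simp only [Pi.smul_apply, smul_mul_assoc]
  | mem N hN =>
    obtain ⟨s, hs, a, -, rfl⟩ := hN
    rcases s with _ | ⟨x, _ | ⟨y, s⟩⟩
    · exact absurd rfl hs
    · refine ⟨Pi.single x (stdPsi p tor f (a • b) 0), fun i => ?_⟩
      obtain ⟨z, hz⟩ := pdiv s2 hp f (a • b) i
      refine ⟨pd tor ℤ_[p] x z, ?_⟩
      have e : ∑ j, pd tor ℤ_[p] x (f j) * ysh _ j (stdPsi p tor f (a • b)) (Pi.single i 1) =
          pd tor ℤ_[p] x (f i) * stdPsi p tor f (a • b) 0 := by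
        rw [Finset.sum_eq_single i]
        · simp [ysh]
        · intro j _ hj
          simp [ysh, hj]
        · simp
      rw [Finset.sum_eq_single x (fun y _ hy => by simp [hy]) (by simp), Pi.single_eq_same,
        mul_comm, ← e, ← map_smul, ← hz, add_comm]
      simp [nu, DOp, cw, mulL, Finset.sum_apply]
    · refine ⟨0, fun i => ?_⟩
      obtain ⟨k, hk⟩ : ∃ k, nu (x :: y :: s).length = 1 + 1 + k :=
        Nat.exists_eq_add_of_le (by simp only [nu, List.length_cons]; omega)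
      rw [hk, LinearMap.smul_apply, Pi.smul_apply, pow_add, pow_add, pow_one, mul_smul, mul_smul]
      exact ⟨_, by simp only [Pi.zero_apply, zero_mul, Finset.sum_const_zero, zero_add]; rfl⟩

theorem dg_stdPsi (s1p : S1p) {c : σ} {f : ι → Tor ℤ_[p] tor} {b : PS ι (Tor ℤ_[p] tor)}
    {dg : ι → ℕ} (hf : ∀ j, f j ∈ Dg _ tor c (dg j)) {D n : ℕ} (hb : ∀ l, b l ∈ Dg _ tor c D)
    (hD : (p - 1) * ∑ j, dg j + D ≤ p * (n + 1)) {i : ι} (hi : dg i = 0) :
    stdPsi p tor f b (Pi.single i 1) ∈ Dg _ tor c n := by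
  refine sum_mem fun l _ => dg_psi0 (Fact.out : p.Prime).two_le
    (dg_mono hD (dg_mul ?_ (hb l)))
  rw [Finset.mul_sum]
  refine dg_prod _ fun j => sum_mem fun t ht => Submodule.smul_mem _ _ ?_
  by_cases hj : j = i
  · subst hj
    have h0 := hf j
    rw [hi] at h0 ⊢
    refine dg_mul0 (dg_pow h0 _) (dg_pow (m := 0) ((s1p p σ tor).2.2.1 _ _ ?_) _)
    rw [(s1p p σ tor).2.1]
    exact sub_mem (dg_pow h0 _) (dg_phi0 p h0)
  · rw [Pi.single_eq_of_ne hj] at ht ⊢
    rw [Finset.range_one, Finset.mem_singleton] at ht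
    rw [ht, pow_zero, mul_one]
    exact dg_mono (Nat.mul_le_mul_right _ (by omega)) (dg_pow (hf j) _)

/-- Simultaneous shifts of several variables. -/
theorem layer (sx : ShiftEx) (g : σ → Tor ℤ_[p] tor) (S : Finset σ) (hS : ∀ i ∈ S, tor i = false)
    (hg : ∀ i ∈ S, ∀ j ∈ S, g i ∈ Dg _ tor j 0) :
    ∃ s : Tor ℤ_[p] tor ≃ₐ[ℤ_[p]] Tor ℤ_[p] tor,
      (∀ τ, IsTri tor (Empty.elim : Empty → σ) (fun _ => ()) p ∅ τ →
        IsTri tor (Empty.elim : Empty → σ) (fun _ => ()) p ∅ (s.trans τ)) ∧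
      (∀ l, s.symm (tX tor _ l) = if l ∈ S then tX tor _ l - g l else tX tor _ l) ∧
      ∀ a, (∀ j ∈ S, a ∈ Dg _ tor j 0) → s.symm a = a := by
  induction S using Finset.induction_on with
  | empty => exact ⟨AlgEquiv.refl, fun _ h => h, fun _ => rfl, fun _ _ => rfl⟩
  | insert i S hi ih =>
    obtain ⟨s, h1, h2, h3⟩ := ih (fun j hj => hS j (Finset.mem_insert_of_mem hj))
      fun j hj k hk => hg j (Finset.mem_insert_of_mem hj) k (Finset.mem_insert_of_mem hk)
    have ht := hS i (Finset.mem_insert_self _ _)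
    have fr : ∀ a ∈ Dg ℤ_[p] tor i 0, a ∈ supp tor ℤ_[p] fun u => u i = 0 :=
      fun a ha u hu => le_antisymm (ha u hu) (u.2 i ht)
    have hgi := fr _ (hg i (Finset.mem_insert_self _ _) i (Finset.mem_insert_self _ _))
    obtain ⟨t, t1, t2⟩ := (sx _ σ tor i (g i) ht hgi).1
    have fx : ∀ a ∈ Dg ℤ_[p] tor i 0, t.symm a = a := fun a ha =>
      t.symm_apply_eq.2 (fix_free (s := t.toAlgHom) ht t2 (fr a ha)).symm
    refine ⟨t.trans s, fun τ hτ => IsTri.step _ t i (g i) (h1 τ hτ) ht mem_Tp hgi t1 t2,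
      fun l => ?_, fun a ha => ?_⟩
    · rw [AlgEquiv.symm_trans_apply, h2]
      by_cases hl : l = i
      · subst hl
        rw [if_neg hi, if_pos (Finset.mem_insert_self _ _), t.symm_apply_eq, map_sub, t1,
          show t (g l) = g l from fix_free (s := t.toAlgHom) ht t2 hgi, add_sub_cancel_right]
      · have e : t.symm (tX tor _ l) = tX tor _ l := t.symm_apply_eq.2 (t2 l hl).symm
        simp only [Finset.mem_insert, hl, false_or]
        split_ifs with h
        · rw [map_sub, e, fx _ (hg l (Finset.mem_insert_of_mem h) i (Finset.mem_insert_self _ _))]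
        · exact e
    · rw [AlgEquiv.symm_trans_apply, h3 a fun j hj => ha j (Finset.mem_insert_of_mem hj),
        fx a (ha i (Finset.mem_insert_self _ _))]

/-- The level one part in new coordinates. -/
theorem core (s1p : S1p) (s2 : S2) (gm : GM) (hp : 7 ≤ p) (tor' : σ → Bool) (c : σ)
    (f : ι → Tor ℤ_[p] (fun _ : σ => false)) (b : PS ι (Tor ℤ_[p] (fun _ : σ => false)))
    (τ : Tor ℤ_[p] tor ≃ₐ[ℤ_[p]] Tor ℤ_[p] tor)
    (hτ : IsTri tor (Empty.elim : Empty → σ) (fun _ => ()) p ∅ τ) {dg : ι → ℕ}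
    (hf : ∀ j, τ.symm (inc _ tor (f j)) ∈ Dg _ tor c (dg j)) {D n : ℕ}
    (hb : ∀ l, τ.symm (inc _ tor (b l)) ∈ Dg _ tor c D)
    (hD : (p - 1) * ∑ j, dg j + D ≤ p * (n + 1)) :
    ∃ (z₀ : ι → Tor ℤ_[p] (fun _ : σ => false)) (z₂ : ι → Tor ℤ_[p] tor) (η : σ → Tor ℤ_[p] tor),
      ∀ i, stdPsi p tor' (fun i => inc _ tor' (f i)) (fun l => inc _ tor' (b l)) (Pi.single i 1) =
          (p : ℤ_[p]) • inc _ tor' (z₀ i) ∧
        (∃ r, inc _ tor (z₀ i) =
          τ (z₂ i) - ∑ x, η x * pd tor ℤ_[p] x (inc _ tor (f i)) - (p : ℤ_[p]) • r) ∧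
        (dg i = 0 → z₂ i ∈ Dg _ tor c n) := by
  choose z₀ hz₀ using pdiv s2 hp f b
  choose z₂ hz₂ using pdiv s2 hp (fun j => τ.symm (inc _ tor (f j)))
    fun l => τ.symm (inc _ tor (b l))
  obtain ⟨N, hN, h⟩ := (gm p hp σ Empty Unit tor Empty.elim (fun _ => ()) (fun v => v.elim)
    (fun _ _ => rfl) ∅ τ hτ).2.2 ι (fun _ => ()) (fun i => inc _ tor (f i)) (fun _ => mem_Tp) 2
  obtain ⟨r, -, hr⟩ := h ∅ le_rfl () (fun l => inc _ tor (b l)) fun _ _ => mem_Tp
  obtain ⟨η, hη⟩ := near s2 hp _ (fun l => inc _ tor (b l)) hN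
  refine ⟨z₀, z₂, η, fun i => ⟨by rw [inc_stdPsi s1p, hz₀, map_smul], ?_, fun hi => ?_⟩⟩
  · obtain ⟨r', e⟩ := hη i
    have e1 := congrFun hr (Pi.single i 1)
    rw [Pi.sub_apply, Pi.sub_apply, e, hz₂, inc_stdPsi s1p, hz₀, map_smul, map_smul,
      LinearMap.lsmul_apply, Pi.smul_apply, pow_two, mul_smul, ← smul_sub, ← smul_sub] at e1
    refine ⟨r' + r (Pi.single i 1), ?_⟩
    rw [smul_add, pcancel s1p e1]
    abel
  · refine (s1p p σ tor).2.2.1 _ _ ?_
    rw [← psmul, ← hz₂]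
    exact dg_stdPsi s1p hf hb hD hi

end Psi

end

end Pool.Agent.MP_ea150c_mp.H14
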