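import Pool.Agent.MP_ea150c_mp.H14.VDa
import Pool.Agent.MP_ea150c_mp.H49.SpecV

/-! The translation to the base vertex, and degrees in the variable `c` of the base vertex. -/

namespace Pool.Agent.MP_ea150c_mp.H14

open Pool.Agent.MP_ea150c_mp.H49 Pool.Agent.MP_ea150c_mp.H45 MvPolynomial

noncomputable section

theorem map_ev {υ A A' Φ : Type} [CommRing A] [CommRing A'] [FunLike Φ A A'] [RingHomClass Φ A A']
    (g : Φ) (x : υ → A) (F : MvPolynomial υ ℤ) :
    g (eval₂ (Int.castRingHom A) x F) = eval₂ (Int.castRingHom A') (fun y => g (x y)) F := by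
  induction F using MvPolynomial.induction_on with
  | C a => rw [eval₂_C, eval₂_C]; simp
  | add F G hF hG => rw [eval₂_add, eval₂_add, map_add, hF, hG]
  | mul_X F y hF => rw [eval₂_mul, eval₂_mul, eval₂_X, eval₂_X, map_mul, hF]

variable {I : Type} [LinearOrder I] [Fintype I]

/-- The variable `α_v`. -/
abbrev al (v : I) : Var I (Ex0 I) := Sum.inr (Sum.inl ⟨v, Finset.notMem_empty v⟩)

/-- The translation by `T`. -/
def trans {A : Type} [CommRing A] (T : Fin 4 → A) (x : Var I (Ex0 I) → A) : Var I (Ex0 I) → A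
  | Sum.inl (v, r) => x (Sum.inl (v, r)) + x (al v) * T r
  | Sum.inr (Sum.inl v) => x (Sum.inr (Sum.inl v))
  | Sum.inr (Sum.inr v) => x (Sum.inr (Sum.inr v)) - (x (Sum.inl (v, 0)) * T 3 +
      x (Sum.inl (v, 3)) * T 0 + x (Sum.inl (v, 1)) * T 2 + x (Sum.inl (v, 2)) * T 1) -
      x (al v) * (T 0 * T 3 + T 1 * T 2)

omit [LinearOrder I] [Fintype I] in
theorem map_trans {A A' Φ : Type} [CommRing A] [CommRing A'] [FunLike Φ A A']
    [RingHomClass Φ A A'] (g : Φ) (T : Fin 4 → A) (x : Var I (Ex0 I) → A) (y : Var I (Ex0 I)) :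
    g (trans T x y) = trans (fun r => g (T r)) (fun z => g (x z)) y := by
  rcases y with ⟨v, r⟩ | v | v <;> simp [trans]

/-- The position of `w` is put to zero. -/
def zw {A : Type} [Zero A] (w : I) (x : Var I (Ex0 I) → A) : Var I (Ex0 I) → A
  | Sum.inl (v, r) => if v = w then 0 else x (Sum.inl (v, r))
  | Sum.inr t => x (Sum.inr t)

variable (Λ : Type) [CommRing Λ] (w : I)

/-- All variables on the slice. -/
def xv (tor : Sl (Ex0 I) w → Bool) (y : Var I (Ex0 I)) : Tor Λ tor :=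
  if h : y ≠ Sum.inl (w, 1) ∧ y ≠ Sum.inl (w, 2) then tX tor Λ ⟨y, h⟩ else 0

/-- Only `α_w` is inverted. -/
def tor1 : Sl (Ex0 I) w → Bool := fun x => decide (x.1 = al w)

/-- The variable `α_w` on the slice. -/
def aS : Sl (Ex0 I) w := ⟨al w, by simp, by simp⟩

/-- The translation vector. -/
def TT (r : Fin 4) : Tor Λ (tor1 w) := xv Λ w _ (Sum.inl (w, r)) * tXi _ Λ (aS w)

/-- The old variables in the new coordinates. -/
def nw : Var I (Ex0 I) → Tor Λ (tor1 w) := trans (TT Λ w) (zw w (xv Λ w _))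

variable {Λ w}

omit [Fintype I] in
theorem xv_coe (tor : Sl (Ex0 I) w → Bool) (x : Sl (Ex0 I) w) : xv Λ w tor x.1 = tX tor Λ x :=
  dif_pos x.2

theorem inc_xv (tor : Sl (Ex0 I) w → Bool) (y : Var I (Ex0 I)) :
    inc Λ tor (xv Λ w _ y) = xv Λ w tor y := by
  unfold xv
  split_ifs
  · exact inc_tX _
  · exact map_zero _

theorem al_ai : xv Λ w (tor1 w) (al w) * tXi _ Λ (aS w) = 1 := by
  rw [show xv Λ w (tor1 w) (al w) = _ from xv_coe _ (aS w)]
  exact tX_mul_tXi _ _ (by simp [tor1, aS])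

omit [Fintype I] in
theorem xv_dg {tor : Sl (Ex0 I) w → Bool} {y : Var I (Ex0 I)} {j : Sl (Ex0 I) w} (h : y ≠ j.1) :
    xv Λ w tor y ∈ Dg Λ tor j 0 := by
  unfold xv
  split_ifs with h'
  · simpa [show (⟨y, h'⟩ : Sl (Ex0 I) w) ≠ j from fun e => h (congrArg Subtype.val e)] using
      dg_tX (Λ := Λ) (tor := tor) (c := j) ⟨y, h'⟩
  · exact zero_mem _

omit [Fintype I] in
theorem TT_dg {r : Fin 4} {j : Sl (Ex0 I) w} (h : Sum.inl (w, r) ≠ j.1) :
    TT Λ w r ∈ Dg Λ _ j 0 := dg_mul0 (xv_dg h) (dg_tXi _)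

omit [Fintype I] in
theorem zw_dg {y : Var I (Ex0 I)} {j : Sl (Ex0 I) w} (h : y ≠ j.1 ∨ ∃ r, y = Sum.inl (w, r)) :
    zw w (xv Λ w (tor1 w)) y ∈ Dg Λ _ j 0 := by
  rcases y with ⟨v, r⟩ | t
  · simp only [zw]
    split_ifs with hv
    · exact zero_mem _
    · exact xv_dg (h.resolve_right fun ⟨r, e⟩ => hv (by simpa using (by simpa using e : _ ∧ _).1))
  · exact xv_dg (h.resolve_right fun ⟨r, e⟩ => by simp at e)

theorem exists_tau {p : ℕ} [Fact p.Prime] (sx : ShiftEx) (w : I) :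
    ∃ τ : Tor ℤ_[p] (tor1 w) ≃ₐ[ℤ_[p]] Tor ℤ_[p] (tor1 w),
      IsTri (tor1 w) (Empty.elim : Empty → _) (fun _ => ()) p ∅ τ ∧
        ∀ y, τ.symm (xv _ w _ y) = nw _ w y := by
  classical
  have e1 : ∀ (l : Sl (Ex0 I) w) v r, v ≠ w → l.1 = Sum.inl (v, r) →
      nw ℤ_[p] w l.1 = tX _ _ l + xv _ w _ (al v) * TT _ w r := fun l v r hv e => by
    rw [← xv_coe, e]
    simp only [nw, trans, zw, if_neg hv]
  obtain ⟨s, a1, a2, -⟩ := layer sx (fun l => tX _ ℤ_[p] l - nw _ w l.1)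
    (Finset.univ.filter fun l : Sl (Ex0 I) w => ∃ v r, v ≠ w ∧ l.1 = Sum.inl (v, r))
    (fun l hl => by
      obtain ⟨v, r, -, e⟩ := (Finset.mem_filter.1 hl).2
      simp [tor1, e])
    fun l hl j hj => by
      obtain ⟨v, r, hv, e⟩ := (Finset.mem_filter.1 hl).2
      obtain ⟨v', r', hv', e'⟩ := (Finset.mem_filter.1 hj).2
      rw [e1 l v r hv e, sub_add_cancel_left]
      exact neg_mem (dg_mul0 (xv_dg (by simp [e'])) (TT_dg (by simp [e', hv'.symm])))
  obtain ⟨t, b1, b2, b3⟩ := layer sx (fun l => tX _ ℤ_[p] l - nw _ w l.1)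
    (Finset.univ.filter fun l : Sl (Ex0 I) w => ∃ v, l.1 = Sum.inr (Sum.inr v))
    (fun l hl => by
      obtain ⟨v, e⟩ := (Finset.mem_filter.1 hl).2
      simp [tor1, e])
    fun l hl j hj => by
      obtain ⟨v, e⟩ := (Finset.mem_filter.1 hl).2
      obtain ⟨v', e'⟩ := (Finset.mem_filter.1 hj).2
      have h1 : ∀ r, TT ℤ_[p] w r ∈ Dg _ _ j 0 := fun r => TT_dg (by simp [e'])
      have h2 : ∀ r, zw w (xv ℤ_[p] w (tor1 w)) (Sum.inl (v, r)) ∈ Dg _ _ j 0 := fun r =>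
        zw_dg (Or.inl (by simp [e']))
      rw [← xv_coe, e, nw, trans, sub_sub, show zw w (xv ℤ_[p] w (tor1 w)) (Sum.inr (Sum.inr v)) =
        xv _ w _ (Sum.inr (Sum.inr v)) from rfl, sub_sub_cancel]
      exact add_mem (add_mem (add_mem (add_mem (dg_mul0 (h2 0) (h1 3)) (dg_mul0 (h2 3) (h1 0)))
        (dg_mul0 (h2 1) (h1 2))) (dg_mul0 (h2 2) (h1 1))) (dg_mul0 (zw_dg (Or.inl (by simp [e'])))
        (add_mem (dg_mul0 (h1 0) (h1 3)) (dg_mul0 (h1 1) (h1 2))))
  refine ⟨_, b1 _ (a1 _ IsTri.refl), fun y => ?_⟩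
  change t.symm (s.symm _) = _
  have e2 : ∀ r, nw ℤ_[p] w (Sum.inl (w, r)) = xv _ w _ (Sum.inl (w, r)) := fun r => by
    simp only [nw, trans, zw, if_true, TT, zero_add]
    rw [mul_left_comm, al_ai, mul_one]
  by_cases hy : y ≠ Sum.inl (w, 1) ∧ y ≠ Sum.inl (w, 2)
  · rw [show xv ℤ_[p] w (tor1 w) y = _ from xv_coe _ ⟨y, hy⟩, a2]
    split_ifs with h1
    · obtain ⟨v, r, hv, e⟩ := (Finset.mem_filter.1 h1).2
      rw [sub_sub_cancel]
      refine b3 _ fun j hj => ?_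
      obtain ⟨v', e'⟩ := (Finset.mem_filter.1 hj).2
      rw [e1 _ v r hv e, ← xv_coe, e]
      exact add_mem (xv_dg (by simp [e'])) (dg_mul0 (xv_dg (by simp [e'])) (TT_dg (by simp [e'])))
    · rw [b2]
      split_ifs with h2
      · rw [sub_sub_cancel]
      · rw [← xv_coe]
        rcases y with ⟨v, r⟩ | v | v
        · obtain rfl : v = w := by simpa using h1
          exact (e2 r).symm
        · rfl
        · simp at h2
  · have h0 : xv ℤ_[p] w (tor1 w) y = 0 := dif_neg hy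
    rw [h0, map_zero, map_zero, ← h0]
    rcases not_and_or.1 hy with h | h <;> rw [not_not.1 h, e2]

section Deg

omit [Fintype I] in
theorem z0_dg (y : Var I (Ex0 I)) : zw w (xv Λ w (tor1 w)) y ∈ Dg Λ _ (cS _ w) 0 := by
  refine zw_dg ?_
  by_cases h : y = (cS (Ex0 I) w).1
  · exact Or.inr ⟨0, h⟩
  · exact Or.inl h

omit [Fintype I] in
theorem T0_dg : TT Λ w 0 ∈ Dg Λ _ (cS _ w) 1 := by
  have h := dg_tX (Λ := Λ) (tor := tor1 w) (c := cS _ w) (cS _ w)
  rw [if_pos rfl, ← xv_coe] at h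
  exact dg_mul h (dg_tXi _)

omit [Fintype I] in
theorem be_dg (v : I) : nw Λ w (Sum.inr (Sum.inr v)) ∈ Dg Λ _ (cS _ w) 1 := by
  have h1 : ∀ r, r ≠ 0 → TT Λ w r ∈ Dg Λ _ (cS _ w) 0 := fun r hr => TT_dg (by simp [cS, hr])
  have up : ∀ a ∈ Dg Λ (tor1 w) (cS _ w) 0, a ∈ Dg Λ _ (cS _ w) 1 := fun a => dg_mono zero_le_one
  exact sub_mem (sub_mem (up _ (z0_dg _)) (add_mem (add_mem (add_mem
    (up _ (dg_mul0 (z0_dg _) (h1 3 (by decide)))) (dg_mul (z0_dg _) T0_dg))
    (up _ (dg_mul0 (z0_dg _) (h1 2 (by decide))))) (up _ (dg_mul0 (z0_dg _) (h1 1 (by decide))))))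
    (dg_mul (z0_dg _) (add_mem (dg_mul T0_dg (h1 3 (by decide)))
      (up _ (dg_mul0 (h1 1 (by decide)) (h1 2 (by decide))))))

variable {E : Type} [Fintype E] [DecidableEq E]

/-- The degrees of the functions. -/
def dgf (G : PG I E) : Io G Finset.univ → ℕ :=
  Sum.elim (fun _ => 0) (Sum.elim (fun e => if G.src e = none ∨ G.tgt e = none then 1 else 0)
    fun _ => 0)

omit [DecidableEq E] in
theorem dgf_sum {G : PG I E} (hG : G.Good) : ∑ i, dgf G i ≤ 3 := by
  rw [← hG.root, PG.deg, Finset.card_filter, Finset.card_filter, ← Finset.sum_add_distrib]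
  simp only [dgf, Fintype.sum_sum_type, Sum.elim_inl, Sum.elim_inr, Finset.sum_const_zero,
    zero_add, add_zero]
  refine Finset.sum_le_sum fun e _ => ?_
  split_ifs <;> simp_all

omit [LinearOrder I] [Fintype E] [DecidableEq E] in
theorem dgf_le (G : PG I E) (i : Io G Finset.univ) : dgf G i ≤ 1 := by
  rcases i with v | e | v <;> simp only [dgf, Sum.elim_inl, Sum.elim_inr, zero_le]
  split_ifs <;> simp

omit [Fintype E] [DecidableEq E] in
theorem f_dg (G : PG I E) (i : Io G Finset.univ) :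
    eval₂ (Int.castRingHom _) (nw Λ w) (G.M0.f i) ∈ Dg Λ _ (cS _ w) (dgf G i) := by
  rcases i with v | e | v
  · have e : eval₂ (Int.castRingHom _) (nw Λ w) (qP ∅ v.1) =
        eval₂ (Int.castRingHom _) (zw w (xv Λ w (tor1 w))) (qP ∅ v.1) := by
      simp [qP, alP, beP, nw, trans]
      ring
    exact e ▸ dg_eval z0_dg _
  · change eval₂ _ _ (edgeP ∅ (G.src e) (G.tgt e)) ∈
      Dg _ _ _ (if G.src e = none ∨ G.tgt e = none then 1 else 0)
    rcases G.src e with _ | u <;> rcases G.tgt e with _ | v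
    · simpa [edgeP] using dg_mono zero_le_one dg_one
    · simpa [edgeP, beP] using be_dg v
    · simpa [edgeP, beP] using be_dg u
    · have e : eval₂ (Int.castRingHom _) (nw Λ w) (edgeP ∅ (some u) (some v)) =
          eval₂ (Int.castRingHom _) (zw w (xv Λ w (tor1 w))) (edgeP ∅ (some u) (some v)) := by
        simp [edgeP, xxP, alP, beP, nw, trans]
        ring
      rw [e, if_neg (by simp)]
      exact dg_eval z0_dg _
  · simpa [PG.model, alP, nw, trans, dgf] using z0_dg (Λ := Λ) (w := w) (al v.1)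

omit [Fintype I] in
theorem XP_dg (j : I) (r : Fin 4) : eval₂ (Int.castRingHom _) (nw Λ w) (XP w (e2 I j) r) ∈
    Dg Λ _ (cS _ w) (if r = 0 ∧ j = w then 1 else 0) := by
  by_cases hj : j = w
  · subst hj
    have e : eval₂ (Int.castRingHom _) (nw Λ j) (XP j (e2 I j) r) =
        zw j (xv Λ j _) (al j) * TT Λ j r := by simp [XP, e2, nw, trans, zw]
    rw [e]
    by_cases hr : r = 0
    · simpa [hr] using dg_mul (z0_dg (al j)) T0_dg
    · simpa [hr] using dg_mul0 (z0_dg (al j)) (TT_dg (r := r) (by simp [cS, hr]))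
  · have e : eval₂ (Int.castRingHom _) (nw Λ w) (XP w (e2 I j) r) =
        zw w (xv Λ w _) (al w) * zw w (xv Λ w _) (Sum.inl (j, r)) := by
      simp [XP, e2, nw, trans, zw, hj, alP]
      ring
    rw [e, if_neg (by simp [hj])]
    exact dg_mul0 (z0_dg _) (z0_dg _)

omit [Fintype I] in
theorem Nh_dg {p : ℕ} (hp : 2 ≤ p) (J : Finset I) :
    eval₂ (Int.castRingHom _) (nw Λ w) (NhP w p (J.map (e2 I))) ∈
      Dg Λ _ (cS _ w) (p * if w ∈ J then 1 else 0) := by
  unfold NhP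
  by_cases h : (J.map (e2 I)).card = 3
  swap
  · rw [dif_neg h, eval₂_zero]
    exact zero_mem _
  rw [dif_pos h]
  have hm := fun k => Finset.mem_map.1 ((J.map (e2 I)).orderEmbOfFin_mem h k)
  choose j hj e using hm
  have hi : Function.Injective j := fun a b hab =>
    ((J.map (e2 I)).orderEmbOfFin h).injective (by rw [← e, ← e, hab])
  have h0 := fun k => XP_dg (Λ := Λ) (w := w) (j k) 0
  have h1 := fun k => XP_dg (Λ := Λ) (w := w) (j k) 1
  have h2 := fun k => XP_dg (Λ := Λ) (w := w) (j k) 2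
  simp only [Fin.reduceEq, false_and, if_false, true_and] at h0 h1 h2
  simp only [← e, eval₂_mul, eval₂_sub, eval₂_pow]
  refine dg_mono ?_ (dg_mul (dg_mul
    (m := (if j 0 = w then 1 else 0) + if j 1 = w then 1 else 0)
    (n := (if j 1 = w then 1 else 0) + if j 2 = w then 1 else 0)
    (sub_mem (dg_mono (by omega) (dg_mul (h2 0) (h0 1))) (dg_mono (by omega) (dg_mul (h2 1) (h0 0))))
    (sub_mem (dg_mono (by omega) (dg_mul (h1 1) (h0 2))) (dg_mono (by omega) (dg_mul (h1 2) (h0 1)))))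
    (dg_mul (dg_mul (dg_pow (h0 0) _) (dg_pow (h0 1) _)) (dg_pow (h0 2) _)))
  by_cases hw : w ∈ J
  · have a := hi.ne (show (0 : Fin 3) ≠ 1 by decide)
    have b := hi.ne (show (0 : Fin 3) ≠ 2 by decide)
    have c := hi.ne (show (1 : Fin 3) ≠ 2 by decide)
    rw [if_pos hw]
    split_ifs <;> first | omega | simp_all
  · have a : ∀ k, j k ≠ w := fun k e => hw (e ▸ hj k)
    simp [a]

end Deg

end

end Pool.Agent.MP_ea150c_mp.H14
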